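import Pool.Agent.H88.OCS.Stmts
import Pool.Agent.H87.SLO.Ker

/-!
# OCS, row SPS: definitions and sub-rows

`SPS` is proved from `BAD` (in most cells a partner shows that `us` is almost a linear function of
the positions and of the lagged velocities) and the telescope.
-/

set_option autoImplicit false

namespace Pool.OCS.SP2

open Finset Real
open Pool.Agent.H49.Ent Pool.Agent.H32.Dense Pool.STK Pool.KAF

variable (d : Dat)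

/-- The position at the base and the lagged velocity. -/
noncomputable def y4 (lam : ℕ) (w : d.Om × d.Om) : Fin 4 → ℝ :=
  ![d.pt (d.T w.1) (d.L w.1) 0, d.pt (d.T w.1) (d.L w.1) 1, d.omR (d.L w.1) 0 / 2 ^ lam,
    d.omR (d.L w.1) 1 / 2 ^ lam]

/-- The label of the cells. -/
def lab (mu : d.Om × d.Om → ℤ) (w : d.Om × d.Om) : d.Tau × d.Tau × ℤ :=
  (d.T w.1, d.T w.2, mu w)

open Classical in
/-- The unknown number, for the good references. -/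
noncomputable def b1 (m : ℤ) (mu : d.Om × d.Om → ℤ) (j k' : ℕ) (w : d.Om × d.Om) : Fin 1 → ℝ :=
  fun _ => if w ∈ Bg d j k' m then (2 : ℝ) ^ (mu w) * d.us w else 0

/-- (ZUP) The forms of the partners near the reference are small on the cells. -/
def ZUPStmt : Prop :=
  ∀ (d : Dat) (k' : ℕ) (m : ℤ) (mu : d.Om × d.Om → ℤ) (n i₀ k₆ lam j i s : ℕ)
    (w v : d.Om × d.Om) (ω : d.Om), 1 ≤ k₆ → LabS d n i₀ k₆ lam m mu → lam + 1 ≤ i₀ → i₀ ≤ i →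
    i₀ ≤ j → lam ≤ s → 0 < d.Qp j w → w ∈ Bg d j k' m → d.GS mu lam s v = d.GS mu lam s w →
    d.Ti i w.1 = d.Ti i ω → d.ta (w.1, ω) ≠ 0 →
    ‖d.ch (w.1, ω) - d.ch w‖ ≤ (2 : ℝ) ^ (1 - mu w) →
    |d.ZR (d.T w.1) (d.T ω) (d.L w.1) - d.ZR (d.T w.1) (d.T ω) (d.L v.1)| ≤
      (2 : ℝ) ^ ((4 : ℤ) - (s + (mu w + i)))

/-- (CEL) If the form of one such partner is almost constant on the cell, the cell is good. -/
def CELStmt : Prop :=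
  ∀ (d : Dat) (K k' : ℕ) (m : ℤ) (mu : d.Om × d.Om → ℤ) (n i₀ k₆ lam j i s k₁ : ℕ) (e' : ℝ)
    (w : d.Om × d.Om) (ω : d.Om), (∀ ω, 0 ≤ d.P ω) → 1 ≤ k₆ → LabS d n i₀ k₆ lam m mu →
    lam + 1 ≤ i₀ → i₀ ≤ i → i₀ ≤ j → lam ≤ s → 0 < d.Qp j w → w ∈ Bg d j k' m →
    d.Ti i w.1 = d.Ti i ω → (2 : ℝ) ^ (-((i : ℤ) + k')) ≤ |d.ta (w.1, ω)| →
    ‖d.ch (w.1, ω) - d.ch w‖ ≤ (2 : ℝ) ^ (1 - mu w) → K + k' ≤ k₁ →
    Pr (cond (d.Qp j) (d.GS mu lam s) (d.GS mu lam s w))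
      {v | (2 : ℝ) ^ (-((s : ℤ) + (mu w + i) + k₁)) ≤
        |d.ZR (d.T w.1) (d.T ω) (d.L w.1) - d.ZR (d.T w.1) (d.T ω) (d.L v.1)|} ≤ e' →
    Pool.SLO.Gd 1 (d.Qp j) (lab d mu) (y4 d lam) (b1 d m mu j k') K e' s w

/-- (BAD) Most cells are good. -/
def BADStmt : Prop :=
  ∀ (d : Dat) (A K k' : ℕ) (J : d.Om → Set ℕ) (m : ℤ) (mu : d.Om × d.Om → ℤ)
    (n h g i₀ k₆ lam j k k₁ : ℕ) (e e' u ε₈ : ℝ), d.OK A → Siz d n h m →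
    64 * g ≤ n → 64 * lam ≤ n → n / 16 ≤ i₀ → i₀ ≤ n → n ≤ j → j < 2 * n → 1 ≤ k₆ →
    LabS d n i₀ k₆ lam m mu → 5 ≤ k → K + k' ≤ k₁ → 0 < u → u ≤ 1 → 0 < e' → 0 ≤ ε₈ →
    RowS d J mu lam n j k k₁ e → d.toR.J1 J h u ε₈ ∅ →
    Pr (d.Qp j) {w | u / 64 * n < d.fs i₀ n w ((2 : ℝ) ^ (1 - mu w))} ≤ ε₈ → TB d g k' ε₈ →
    ∑ s ∈ Finset.Ico (8 * n) (d.X - 8 * n), Pr (d.Qp j) {w | w ∈ Bg d j k' m ∧
      ¬ Pool.SLO.Gd 1 (d.Qp j) (lab d mu) (y4 d lam) (b1 d m mu j k') K e' s w} ≤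
      (ε₈ * (2 + 128 / u) + 8 * e / (u * e')) * d.X

end Pool.OCS.SP2
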