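import Pool.Agent.H70.OCS.Sps
import Pool.Agent.H12.OCS.Bad
import Pool.Agent.H41.OCS.Cel

/-!
# OCS, row SPS: conclusion
-/

set_option autoImplicit false

namespace Pool.OCS

open Pool.OCS.SP2

/-- **SPS**: the position is spread in the cells of stage A, in all directions. -/
theorem sps_thm : SPSStmt := sps_of (bad_of zup_thm cel_thm)

end Pool.OCS
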