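import Pool.Agent.H87.SLO.Gen
import Pool.Agent.H87.SLO.Ker

/-!
# OCS, row SPS: the telescope for a part of the free variable
-/

set_option autoImplicit false

namespace Pool.OCS.SP2

open Finset Real
open Pool.Agent.H49.Ent Pool.Agent.H32.Dense Pool.STK Pool.KAF Pool.KVA

variable {Ω : Type} [Fintype Ω] {S T U V : Type}

/-- The telescope: `F j` is the free part of the cell, `B j` the dependent part; `P (j + 1)` is a
part of the next free part. -/
theorem tel2 {α β γ : ℕ → Type} {p : Ω → ℝ} (hp : ∀ ω, 0 ≤ p ω) (F : ∀ j, Ω → α j)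
    (B : ∀ j, Ω → β j) (P : ∀ j, Ω → γ j) (n : ℕ) (h : ℕ → ℝ)
    (hF : ∀ j < n, Det p (F (j + 1)) (F j)) (hP : ∀ j < n, Det p (F (j + 1)) (P (j + 1)))
    (hh : ∀ j < n, CH p (B (j + 1)) (fun ω => (F (j + 1) ω, B j ω)) ≤ h j) :
    ∑ j ∈ range n, CH p (P (j + 1)) (F j) + CH p (B n) (F n) ≤
      CH p (B 0) (F 0) + ∑ j ∈ range n, h j +
        ∑ j ∈ range n, CH p (P (j + 1)) (fun ω => (F j ω, B j ω)) := by
  have key : ∀ m ≤ n, ∑ j ∈ range m, CH p (P (j + 1)) (F j) + CH p (B m) (F m) ≤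
      CH p (B 0) (F 0) + ∑ j ∈ range m, h j +
        ∑ j ∈ range m, CH p (P (j + 1)) (fun ω => (F j ω, B j ω)) := by
    intro m
    induction m with
    | zero =>
      intro _
      simp
    | succ m ih =>
      intro hm
      have h0 := ih (by omega)
      rw [sum_range_succ, sum_range_succ, sum_range_succ]
      have h1 := hh m (by omega)
      -- the next free part
      have e1 := CH_chain hp (P (m + 1)) (B m) (F m)
      have e2 := CH_chain hp (B m) (P (m + 1)) (F m)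
      have e3 : CH p (fun ω => (P (m + 1) ω, B m ω)) (F m) =
          CH p (fun ω => (B m ω, P (m + 1) ω)) (F m) := by
        refine CH_congr hp ?_ ?_ (fun _ _ _ _ h => h) (fun _ _ _ _ h => h) <;>
        · intro ω ω' _ _ hw
          simp only [Prod.mk.injEq] at hw ⊢
          tauto
      have e4 : CH p (P (m + 1)) (fun ω => (B m ω, F m ω)) =
          CH p (P (m + 1)) (fun ω => (F m ω, B m ω)) := by
        refine CH_congr hp ?_ ?_ ?_ ?_ <;>
        · intro ω ω' _ _ hw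
          simp only [Prod.mk.injEq] at hw ⊢
          tauto
      have e5 : CH p (B m) (F (m + 1)) ≤ CH p (B m) (fun ω => (P (m + 1) ω, F m ω)) := by
        refine CH_mono_cond hp ?_
        intro ω ω' a b hw
        exact Prod.ext (hP m (by omega) ω ω' a b hw) (hF m (by omega) ω ω' a b hw)
      have e6 := CH_le_add hp (B (m + 1)) (B m) (F (m + 1))
      have e7 : CH p (B (m + 1)) (fun ω => (B m ω, F (m + 1) ω)) =
          CH p (B (m + 1)) (fun ω => (F (m + 1) ω, B m ω)) := by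
        refine CH_congr hp ?_ ?_ ?_ ?_ <;>
        · intro ω ω' _ _ hw
          simp only [Prod.mk.injEq] at hw ⊢
          tauto
      linarith
  exact key n le_rfl

/-- Bits of a block. -/
theorem bits {α γ : ℕ → Type} {p : Ω → ℝ} (hp : ∀ ω, 0 ≤ p ω) (F : ∀ j, Ω → α j)
    (P : ∀ j, Ω → γ j) (hF : ∀ j, Det p (F (j + 1)) (F j)) (hP : ∀ j, Det p (F j) (P j))
    (hPP : ∀ j, Det p (P (j + 1)) (P j)) (s K : ℕ) :
    ∑ r ∈ range K, CH p (P (s + r + 1)) (F (s + r)) ≤ CH p (P (s + K)) (F s) := by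
  have hFF : ∀ r, Det p (F (s + r)) (F s) := by
    intro r
    induction r with
    | zero => exact fun _ _ _ _ h => h
    | succ r ih => exact fun ω ω' a b h => ih ω ω' a b (hF (s + r) ω ω' a b h)
  induction K with
  | zero =>
    rw [range_zero, sum_empty]
    exact CH_nonneg hp _ _
  | succ K ih =>
    rw [sum_range_succ]
    have e1 : CH p (P (s + (K + 1))) (F s) =
        CH p (P (s + K)) (F s) + CH p (P (s + K + 1)) (fun ω => (P (s + K) ω, F s ω)) := by
      rw [← CH_chain hp]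
      refine CH_congr hp ?_ ?_ (fun _ _ _ _ h => h) (fun _ _ _ _ h => h)
      · intro ω ω' a b hw
        have h1 : P (s + K + 1) ω = P (s + K + 1) ω' := (Prod.ext_iff.1 hw).1
        exact Prod.ext h1 (hPP (s + K) ω ω' a b h1)
      · intro ω ω' _ _ hw
        exact (Prod.ext_iff.1 (Prod.ext_iff.1 hw).1).1
    have e2 : CH p (P (s + K + 1)) (F (s + K)) ≤
        CH p (P (s + K + 1)) (fun ω => (P (s + K) ω, F s ω)) := by
      refine CH_mono_cond hp ?_
      intro ω ω' a b hw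
      exact Prod.ext (hP (s + K) ω ω' a b hw) (hFF K ω ω' a b hw)
    rw [e1]
    linarith

/-- The cost of a second sample with the same cell of the time. -/
theorem cost2 {Λ τ γ : Type} {p : Ω → ℝ} (hp : IsLaw p) (L : Ω → Λ) (t : Ω → τ) (c : Ω → γ)
    (hc : Det p t c) :
    CH (dbl p (fun ω => (L ω, c ω))) (fun w => t w.2) (fun w => t w.1) ≤
      CH (dbl p (fun ω => (L ω, c ω))) (fun w => t w.2) (fun w => (t w.1, L w.1)) +
        MI p L t (fun _ => ()) := by
  have hp0 := hp.nonneg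
  set Q := dbl p (fun ω => (L ω, c ω)) with hQ
  have hQ0 : ∀ w, 0 ≤ Q w := fun w => dbl_nonneg hp0 w
  have hpos : ∀ w, 0 < Q w → 0 < p w.1 ∧ 0 < p w.2 ∧ (L w.1, c w.1) = (L w.2, c w.2) :=
    fun w hw => (glue_pos_iff hp0 hp0 w).1 hw
  have h1 : CH Q (fun w => t w.2) (fun w => t w.1) ≤ CH p t c := by
    have e1 := (dbl_snd (b := fun ω => (L ω, c ω)) hp0).CH t c
    rw [← e1]
    refine CH_mono_cond hQ0 ?_
    intro w w' hw hw' h
    obtain ⟨a1, a2, a3⟩ := hpos w hw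
    obtain ⟨b1, b2, b3⟩ := hpos w' hw'
    have h2 := hc w.1 w'.1 a1 b1 h
    have h3 := (Prod.ext_iff.1 a3).2
    have h4 := (Prod.ext_iff.1 b3).2
    show c w.2 = c w'.2
    simp only at h3 h4
    rw [← h3, ← h4, h2]
  have h2 : CH p t (fun ω => (L ω, c ω)) ≤ CH Q (fun w => t w.2) (fun w => (t w.1, L w.1)) := by
    have e1 := CH_glue_snd (p₁ := p) (p₂ := p) (Z₁ := fun ω => (L ω, c ω))
      (Z₂ := fun ω => (L ω, c ω)) hp0 hp0 (fun _ => rfl) t (Y := fun ω => (L ω, c ω)) t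
      (fun _ _ _ _ h => h)
    rw [← e1]
    refine CH_mono_cond hQ0 ?_
    intro w w' hw hw' h
    obtain ⟨a1, a2, a3⟩ := hpos w hw
    obtain ⟨b1, b2, b3⟩ := hpos w' hw'
    have h3 : t w.1 = t w'.1 := (Prod.ext_iff.1 h).2
    have h4 : L w.2 = L w'.2 := (Prod.ext_iff.1 (Prod.ext_iff.1 h).1).1
    have h5 : L w.1 = L w.2 := (Prod.ext_iff.1 a3).1
    have h6 : L w'.1 = L w'.2 := (Prod.ext_iff.1 b3).1
    show (t w.1, L w.1) = (t w'.1, L w'.1)
    rw [h5, h6, h3, h4]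
  have h3 := Pool.OC.cost_sub hp0 L t c hc
  rw [Pool.OC.mi_comm _ _ _ hp0, CLU.MI_eq hp0] at h3
  linarith

/-- The entropy of the next bit of a pair of numbers. -/
theorem bit_le {p : Ω → ℝ} (hp : IsLaw p) (x : Ω → Fin 2 → ℝ) (s : ℕ) (W : Ω → T)
    (hW : Det p W (fun ω j => ⌊(2 : ℝ) ^ s * x ω j⌋)) :
    CH p (fun ω (j : Fin 2) => ⌊(2 : ℝ) ^ (s + 1) * x ω j⌋) W ≤ 2 * Real.log 2 := by
  refine (Pool.STK.Q22.CH_pi hp.nonneg W 2 _).trans ?_
  have key : ∀ a : Fin 2, CH p (fun ω => ⌊(2 : ℝ) ^ (s + 1) * x ω a⌋) W ≤ Real.log 2 := by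
    intro a
    have h1 := Pool.OCT.ch_fl_le hp 1 ((2 : ℝ) ^ s) (fun ω => x ω a) W
      (fun ω ω' b c h => congrFun (hW ω ω' b c h) a)
    have e1 : Pool.OCT.fl (2 ^ 1 * (2 : ℝ) ^ s) (fun ω => x ω a) =
        fun ω => ⌊(2 : ℝ) ^ (s + 1) * x ω a⌋ := by
      funext ω
      unfold Pool.OCT.fl
      rw [pow_one, pow_succ, mul_comm (2 : ℝ)]
    rw [e1] at h1
    simpa using h1
  refine (Finset.sum_le_sum fun a _ => key a).trans (le_of_eq ?_)
  rw [Finset.sum_const, nsmul_eq_mul, Finset.card_univ, Fintype.card_fin]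
  norm_num

end Pool.OCS.SP2
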