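import Pool.Agent.H70.OCS.Defs
import Pool.Agent.H70.OCS.Tel
import Pool.Agent.H70.OC.Spra

/-!
# OCS, row SPS: the spread of the position, from the telescope
-/

set_option autoImplicit false

namespace Pool.OCS.SP2

open Finset Real
open Pool.Agent.H49.Ent Pool.Agent.H32.Dense Pool.STK Pool.KAF Pool.KVA
open Pool.SLO (Yd Cl)

/-- Fewer digits. -/
theorem floor_anti {s s' : ℕ} (h : s ≤ s') {x x' : ℝ}
    (hx : ⌊(2 : ℝ) ^ s' * x⌋ = ⌊(2 : ℝ) ^ s' * x'⌋) : ⌊(2 : ℝ) ^ s * x⌋ = ⌊(2 : ℝ) ^ s * x'⌋ := by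
  obtain ⟨k, rfl⟩ := Nat.exists_eq_add_of_le h
  have h1 := Pool.OC.SP.fl_mono (Ω := ℝ) k ((2 : ℝ) ^ s) (fun z => z) (ω := x) (ω' := x') (by
    unfold Pool.OCT.fl
    rw [← pow_add, add_comm k s]
    exact hx)
  exact h1

variable (d : Dat)

/-- The free part of the cell. -/
noncomputable def Fr (lam s : ℕ) (w : d.Om × d.Om) : d.Tau × (Fin 4 → ℤ) :=
  (d.T w.1, Yd (y4 d lam) s w)

/-- The position. -/
noncomputable def Pd (s : ℕ) (w : d.Om × d.Om) : Fin 2 → ℤ := d.ptd s w.1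

/-- The dependent part of the cell. -/
noncomputable def Bv (m : ℤ) (mu : d.Om × d.Om → ℤ) (j k' s : ℕ) (w : d.Om × d.Om) :
    (d.Tau × ℤ) × (Fin 1 → ℤ) :=
  ((d.T w.2, mu w), Yd (b1 d m mu j k') s w)

variable {d}

theorem Yd_anti {k : ℕ} {Ω : Type} (y : Ω → Fin k → ℝ) {s s' : ℕ} (h : s ≤ s') {ω ω' : Ω}
    (hY : Yd y s' ω = Yd y s' ω') : Yd y s ω = Yd y s ω' := by
  funext a
  exact floor_anti h (congrFun hY a)

theorem Fr_anti {lam s s' : ℕ} (h : s ≤ s') {w w' : d.Om × d.Om}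
    (hF : Fr d lam s' w = Fr d lam s' w') : Fr d lam s w = Fr d lam s w' := by
  unfold Fr at hF ⊢
  rw [Prod.mk.injEq] at hF
  exact Prod.ext hF.1 (Yd_anti _ h hF.2)

theorem Fr_Pd {lam s : ℕ} {w w' : d.Om × d.Om} (hF : Fr d lam s w = Fr d lam s w') :
    Pd d s w = Pd d s w' := by
  unfold Fr at hF
  rw [Prod.mk.injEq] at hF
  funext a
  fin_cases a
  · exact congrFun hF.2 0
  · exact congrFun hF.2 1

theorem Pd_anti {s s' : ℕ} (h : s ≤ s') {w w' : d.Om × d.Om} (hP : Pd d s' w = Pd d s' w') :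
    Pd d s w = Pd d s w' := by
  funext a
  exact floor_anti h (congrFun hP a)

/-- The digits of the lagged velocity. -/
theorem om_dig {lam s : ℕ} (h : lam ≤ s) (x : ℝ) :
    ⌊(2 : ℝ) ^ s * (x / 2 ^ lam)⌋ = ⌊(2 : ℝ) ^ (s - lam) * x⌋ := by
  congr 1
  have : (2 : ℝ) ^ s = 2 ^ (s - lam) * 2 ^ lam := by rw [← pow_add, Nat.sub_add_cancel h]
  rw [this]
  field_simp

theorem Fr_iff {lam s : ℕ} (h : lam ≤ s) {w w' : d.Om × d.Om} :
    Fr d lam s w = Fr d lam s w' ↔ d.T w.1 = d.T w'.1 ∧ d.ptd s w.1 = d.ptd s w'.1 ∧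
      d.omd (s - lam) (d.L w.1) = d.omd (s - lam) (d.L w'.1) := by
  constructor
  · intro hF
    have h1 := Fr_Pd hF
    unfold Fr at hF
    rw [Prod.mk.injEq] at hF
    refine ⟨hF.1, h1, ?_⟩
    funext a
    fin_cases a
    · have h2 : ⌊(2 : ℝ) ^ s * (d.omR (d.L w.1) 0 / 2 ^ lam)⌋ =
        ⌊(2 : ℝ) ^ s * (d.omR (d.L w'.1) 0 / 2 ^ lam)⌋ := congrFun hF.2 2
      rw [om_dig h, om_dig h] at h2
      exact h2
    · have h2 : ⌊(2 : ℝ) ^ s * (d.omR (d.L w.1) 1 / 2 ^ lam)⌋ =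
        ⌊(2 : ℝ) ^ s * (d.omR (d.L w'.1) 1 / 2 ^ lam)⌋ := congrFun hF.2 3
      rw [om_dig h, om_dig h] at h2
      exact h2
  · rintro ⟨h1, h2, h3⟩
    unfold Fr
    refine Prod.ext h1 ?_
    funext a
    fin_cases a
    · exact congrFun h2 0
    · exact congrFun h2 1
    · show ⌊(2 : ℝ) ^ s * (d.omR (d.L w.1) 0 / 2 ^ lam)⌋ =
        ⌊(2 : ℝ) ^ s * (d.omR (d.L w'.1) 0 / 2 ^ lam)⌋
      rw [om_dig h, om_dig h]
      exact congrFun h3 0
    · show ⌊(2 : ℝ) ^ s * (d.omR (d.L w.1) 1 / 2 ^ lam)⌋ =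
        ⌊(2 : ℝ) ^ s * (d.omR (d.L w'.1) 1 / 2 ^ lam)⌋
      rw [om_dig h, om_dig h]
      exact congrFun h3 1

/-- Everything outside the good references is a good cell. -/
theorem gd_out {m : ℤ} {mu : d.Om × d.Om → ℤ} {lam j k' K s : ℕ} {e' : ℝ} (he' : 0 ≤ e')
    (hP : ∀ ω, 0 ≤ d.P ω) {w : d.Om × d.Om} (hw : w ∉ Bg d j k' m) :
    Pool.SLO.Gd 1 (d.Qp j) (lab d mu) (y4 d lam) (b1 d m mu j k') K e' s w := by
  classical
  refine ⟨fun _ => (fun _ => 1, fun _ => 0), ?_, fun _ => ?_, fun _ => ?_⟩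
  · refine ⟨fun _ _ => 1, fun _ _ => by simp, ?_, ?_⟩ <;>
    · intro a b
      rw [if_pos (Subsingleton.elim a b)]
      simp
  · have : ‖(fun _ => 0 : Fin 4 → ℝ)‖ = 0 := norm_zero
    show ‖(fun _ => 0 : Fin 4 → ℝ)‖ ≤ 2
    rw [this]
    norm_num
  · unfold Pool.SLO.Atm
    refine le_trans (le_of_eq ?_) he'
    rw [Pr_eq]
    refine Finset.sum_eq_zero fun v _ => ?_
    split_ifs with hv
    · by_contra hne
      have hc0 := cond_nonneg (fun w => dbl_nonneg (b := fun ω => (d.L ω, d.Ti j ω)) hP w)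
        (Cl (lab d mu) (y4 d lam) (b1 d m mu j k') s)
        (Cl (lab d mu) (y4 d lam) (b1 d m mu j k') s w) v
      have hpos : 0 < cond (d.Qp j) (Cl (lab d mu) (y4 d lam) (b1 d m mu j k') s)
        (Cl (lab d mu) (y4 d lam) (b1 d m mu j k') s w) v := lt_of_le_of_ne hc0 (Ne.symm hne)
      obtain ⟨-, hcell⟩ := (cond_pos_iff (fun w => dbl_nonneg (b := fun ω => (d.L ω, d.Ti j ω)) hP w)
        _ _ v).1 hpos
      have hlab : lab d mu v = lab d mu w := (Prod.ext_iff.1 hcell).1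
      have hv' : v ∉ Bg d j k' m := by
        intro hB
        apply hw
        unfold lab at hlab
        simp only [Prod.mk.injEq] at hlab
        obtain ⟨a1, a2, -⟩ := hlab
        unfold Bg Dat.sg Dat.ta at hB ⊢
        simp only [Set.mem_ofPred_eq] at hB ⊢
        rw [← a1, ← a2]
        exact hB
      have e1 : b1 d m mu j k' v = fun _ => 0 := by
        funext a
        unfold b1
        rw [if_neg hv']
      have e2 : b1 d m mu j k' w = fun _ => 0 := by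
        funext a
        unfold b1
        rw [if_neg hw]
      have hv2 : 1 / (2 : ℝ) ^ (s + K) < |Pool.SLO.Frm.ev ((fun _ => 1, fun _ => 0) :
          Pool.SLO.Frm 4 1) (b1 d m mu j k' v) (y4 d lam v) -
          Pool.SLO.Frm.ev ((fun _ => 1, fun _ => 0) : Pool.SLO.Frm 4 1) (b1 d m mu j k' w)
            (y4 d lam w)| := hv
      rw [e1, e2] at hv2
      unfold Pool.SLO.Frm.ev at hv2
      simp only [mul_zero, zero_mul, Finset.sum_const_zero, sub_self, abs_zero] at hv2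
      have : (0 : ℝ) < 1 / 2 ^ (s + K) := by positivity
      linarith
    · rfl

/-- One step of the telescope. -/
theorem step2 {m : ℤ} {mu : d.Om × d.Om → ℤ} {lam j k' K : ℕ} {e' : ℝ} (he' : 0 ≤ e')
    (hP : IsLaw d.P) (hQ : IsLaw (d.Qp j)) (s : ℕ) :
    CH (d.Qp j) (Bv d m mu j k' (s + K)) (fun w => (Fr d lam (s + K) w, Bv d m mu j k' s w)) ≤
      6 * Real.log 2 + (e' + Pr (d.Qp j) {w | w ∈ Bg d j k' m ∧
        ¬ Pool.SLO.Gd 1 (d.Qp j) (lab d mu) (y4 d lam) (b1 d m mu j k') K e' s w}) *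
        (K * Real.log 2) := by
  classical
  have h1 := (Pool.SLO.dat (d.Qp j) (lab d mu) (y4 d lam) (b1 d m mu j k') 0 0).step hQ (B := 1)
    zero_le_one (K := K) (k₁ := K) le_rfl he' s
  have e1 : CH (Pool.SLO.dat (d.Qp j) (lab d mu) (y4 d lam) (b1 d m mu j k') 0 0).p
      ((Pool.SLO.dat (d.Qp j) (lab d mu) (y4 d lam) (b1 d m mu j k') 0 0).C (s + K))
      (fun ω => (((Pool.SLO.dat (d.Qp j) (lab d mu) (y4 d lam) (b1 d m mu j k') 0 0).lab ω,
        (Pool.SLO.dat (d.Qp j) (lab d mu) (y4 d lam) (b1 d m mu j k') 0 0).Y (s + K) ω),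
        (Pool.SLO.dat (d.Qp j) (lab d mu) (y4 d lam) (b1 d m mu j k') 0 0).G s ω)) =
      CH (d.Qp j) (Bv d m mu j k' (s + K))
        (fun w => (Fr d lam (s + K) w, Bv d m mu j k' s w)) := by
    rw [Pool.SLO.dat_C, Pool.SLO.dat_Y]
    show CH (d.Qp j) _ _ = _
    refine CH_congr hQ.nonneg ?_ ?_ ?_ ?_
    · intro w w' _ _ h
      obtain ⟨c1, c2⟩ := Prod.ext_iff.1 h
      obtain ⟨c3, -⟩ := Prod.ext_iff.1 c2
      obtain ⟨c4, -⟩ := Prod.ext_iff.1 c3
      have c5 : lab d mu w = lab d mu w' := c4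
      unfold lab at c5
      simp only [Prod.mk.injEq] at c5
      have c6 : Yd (b1 d m mu j k') (0 + (s + K)) w = Yd (b1 d m mu j k') (0 + (s + K)) w' := c1
      rw [zero_add] at c6
      unfold Bv
      rw [c5.2.1, c5.2.2, c6]
    · intro w w' _ _ h
      obtain ⟨c1, -⟩ := Prod.ext_iff.1 h
      have c2 : Bv d m mu j k' (s + K) w = Bv d m mu j k' (s + K) w' := c1
      unfold Bv at c2
      simp only [Prod.mk.injEq] at c2
      show Yd (b1 d m mu j k') (0 + (s + K)) w = Yd (b1 d m mu j k') (0 + (s + K)) w'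
      rw [zero_add]
      exact c2.2
    · intro w w' _ _ h
      obtain ⟨c1, c2⟩ := Prod.ext_iff.1 h
      obtain ⟨c3, c4⟩ := Prod.ext_iff.1 c1
      have c5 : lab d mu w = lab d mu w' := c3
      have c6 : Yd (y4 d lam) (0 + (s + K)) w = Yd (y4 d lam) (0 + (s + K)) w' := c4
      rw [zero_add] at c6
      unfold lab at c5
      simp only [Prod.mk.injEq] at c5
      have c7 := (Pool.SLO.dat_G (p := d.Qp j) (lab d mu) (y4 d lam) (b1 d m mu j k') 0 0 s w w').1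
        c2
      rw [zero_add] at c7
      have c8 : Yd (b1 d m mu j k') s w = Yd (b1 d m mu j k') s w' :=
        (Prod.ext_iff.1 (Prod.ext_iff.1 c7).2).2
      show (Fr d lam (s + K) w, Bv d m mu j k' s w) = (Fr d lam (s + K) w', Bv d m mu j k' s w')
      unfold Fr Bv
      rw [c5.1, c5.2.1, c5.2.2, c6, c8]
    · intro w w' _ _ h
      obtain ⟨c1, c2⟩ := Prod.ext_iff.1 h
      have c3 : Fr d lam (s + K) w = Fr d lam (s + K) w' := c1
      have c4 : Bv d m mu j k' s w = Bv d m mu j k' s w' := c2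
      unfold Fr at c3
      unfold Bv at c4
      simp only [Prod.mk.injEq] at c3 c4
      have c5 : lab d mu w = lab d mu w' := by
        unfold lab
        rw [c3.1, c4.1.1, c4.1.2]
      refine Prod.ext (Prod.ext c5 ?_) ?_
      · show Yd (y4 d lam) (0 + (s + K)) w = Yd (y4 d lam) (0 + (s + K)) w'
        rw [zero_add]
        exact c3.2
      · refine (Pool.SLO.dat_G (p := d.Qp j) (lab d mu) (y4 d lam) (b1 d m mu j k') 0 0 s w w').2 ?_
        rw [zero_add]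
        unfold Cl
        rw [c5, c4.2, Yd_anti (y4 d lam) (Nat.le_add_right s K) c3.2]
  rw [e1] at h1
  refine h1.trans ?_
  have e2 : Real.log (2 * ((1 : ℕ) : ℝ) * 1 + 4 * ((1 : ℕ) : ℝ) * 1 * ((4 : ℕ) : ℝ) + 2) ≤
      5 * Real.log 2 := by
    have h2 : (5 : ℝ) * Real.log 2 = Real.log (2 ^ 5) := by
      rw [Real.log_pow]
      push_cast
      ring
    rw [h2]
    refine Real.log_le_log (by norm_num) (by norm_num)
  have e3 : Pr (d.Qp j) {ω | ¬ (Pool.SLO.dat (d.Qp j) (lab d mu) (y4 d lam)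
      (b1 d m mu j k') 0 0).Good 1 K e' s ω} ≤ Pr (d.Qp j) {w | w ∈ Bg d j k' m ∧
        ¬ Pool.SLO.Gd 1 (d.Qp j) (lab d mu) (y4 d lam) (b1 d m mu j k') K e' s w} := by
    refine Pool.KAF.Pr_mono hQ.nonneg fun w _ hw => ?_
    have h2 : ¬ Pool.SLO.Gd 1 (d.Qp j) (lab d mu) (y4 d lam) (b1 d m mu j k') K e' s w := by
      intro h3
      apply hw
      refine Pool.SLO.dat_good (lab d mu) (y4 d lam) (b1 d m mu j k') 0 0 ?_
      rw [zero_add]
      exact h3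
    refine ⟨?_, h2⟩
    by_contra h4
    exact h2 (gd_out he' hP.nonneg h4)
  have hl : 0 ≤ (K : ℝ) * Real.log 2 := by positivity
  have e4 := mul_le_mul_of_nonneg_right e3 hl
  have e5 : ((1 : ℕ) : ℝ) * (((1 : ℕ) : ℝ) * e') * (K * Real.log 2) = e' * (K * Real.log 2) := by
    push_cast
    ring
  have e6 : ((1 : ℕ) : ℝ) * (K * Real.log 2) = K * Real.log 2 := by
    push_cast
    ring
  have e7 : (Pool.SLO.dat (d.Qp j) (lab d mu) (y4 d lam) (b1 d m mu j k') 0 0).p = d.Qp j := rfl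
  rw [e5, e6, e7]
  push_cast at e2 ⊢
  linarith

/-- The position is full given the free part of the cells. -/
theorem full2 (hP : IsLaw d.P) {lam : ℕ} {ι : ℝ} (hH3 : d.H3 lam ι) (j : ℕ) {s₀ M K : ℕ}
    (hl : lam ≤ s₀) (hM : s₀ + M * K ≤ d.X) :
    (2 * (M * K) - ι * d.X) * Real.log 2 ≤
      ∑ i ∈ range M, CH (d.Qp j) (Pd d (s₀ + (i + 1) * K)) (Fr d lam (s₀ + i * K)) := by
  have hQ0 : ∀ w, 0 ≤ d.Qp j w := fun w => dbl_nonneg hP.nonneg w
  obtain ⟨c, hc⟩ : ∃ c : ℕ → ℝ, c = fun s => CH d.P (d.ptd (s + 1))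
    (fun ω => (d.ptd s ω, d.omd (s - lam) (d.L ω), d.T ω)) := ⟨_, rfl⟩
  have hc2 : ∀ s, c s ≤ 2 * Real.log 2 := by
    intro s
    rw [hc]
    exact bit_le hP (fun ω j => d.pt (d.T ω) (d.L ω) j) s _ (fun ω ω' _ _ h =>
      (Prod.ext_iff.1 h).1)
  have hf : ∀ s, lam ≤ s → CH (d.Qp j) (Pd d (s + 1)) (Fr d lam s) = c s := by
    intro s hs
    rw [hc]
    have h1 := (dbl_fst (b := fun ω => (d.L ω, d.Ti j ω)) hP.nonneg).CH (d.ptd (s + 1))
      (fun ω => (d.ptd s ω, d.omd (s - lam) (d.L ω), d.T ω))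
    show _ = CH d.P (d.ptd (s + 1)) (fun ω => (d.ptd s ω, d.omd (s - lam) (d.L ω), d.T ω))
    rw [← h1]
    refine CH_congr hQ0 ?_ ?_ ?_ ?_
    · intro w w' _ _ h
      exact (Prod.ext_iff.1 h).1
    · intro w w' _ _ h
      exact (Prod.ext_iff.1 h).1
    · intro w w' _ _ h
      obtain ⟨h1, h2, h3⟩ := (Fr_iff hs).1 h
      show (d.ptd s w.1, d.omd (s - lam) (d.L w.1), d.T w.1) =
        (d.ptd s w'.1, d.omd (s - lam) (d.L w'.1), d.T w'.1)
      rw [h1, h2, h3]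
    · intro w w' _ _ h
      have h1 : (d.ptd s w.1, d.omd (s - lam) (d.L w.1), d.T w.1) =
        (d.ptd s w'.1, d.omd (s - lam) (d.L w'.1), d.T w'.1) := h
      simp only [Prod.mk.injEq] at h1
      exact (Fr_iff hs).2 ⟨h1.2.2, h1.1, h1.2.1⟩
  have hblock : ∀ i ∈ range M, ∑ r ∈ range K, c (s₀ + (r + i * K)) ≤
      CH (d.Qp j) (Pd d (s₀ + (i + 1) * K)) (Fr d lam (s₀ + i * K)) := by
    intro i _
    have h1 := bits hQ0 (fun s => Fr d lam s) (fun s => Pd d s)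
      (fun s w w' _ _ h => Fr_anti (Nat.le_succ s) h) (fun s w w' _ _ h => Fr_Pd h)
      (fun s w w' _ _ h => Pd_anti (Nat.le_succ s) h) (s₀ + i * K) K
    have e1 : s₀ + (i + 1) * K = s₀ + i * K + K := by ring
    rw [e1]
    refine le_trans (le_of_eq ?_) h1
    refine Finset.sum_congr rfl fun r _ => ?_
    have e2 : s₀ + (r + i * K) = s₀ + i * K + r := by ring
    rw [e2, ← hf _ (by omega)]
  refine le_trans ?_ (Finset.sum_le_sum hblock)
  have e3 : ∑ i ∈ range M, ∑ r ∈ range K, c (s₀ + (r + i * K)) =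
      ∑ s ∈ range (M * K), c (s₀ + s) := by
    rw [Finset.sum_comm, Pool.OCG.sum_range_mul (fun s => c (s₀ + s))]
  rw [e3]
  have h3 : (2 - ι) * d.X * Real.log 2 ≤ ∑ s ∈ range d.X, c s := by
    rw [hc]
    exact hH3
  have e4 : ∑ s ∈ range d.X, c s = ∑ s ∈ range s₀, c s + ∑ s ∈ range (M * K), c (s₀ + s) +
      ∑ s ∈ range (d.X - s₀ - M * K), c (s₀ + M * K + s) := by
    have e5 : d.X = s₀ + M * K + (d.X - s₀ - M * K) := by omega
    conv_lhs => rw [e5]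
    rw [Finset.sum_range_add, Finset.sum_range_add]
  have h4 : ∑ s ∈ range s₀, c s ≤ s₀ * (2 * Real.log 2) := by
    have := Finset.sum_le_card_nsmul (range s₀) c _ fun s _ => hc2 s
    rwa [card_range, nsmul_eq_mul] at this
  have h5 : ∑ s ∈ range (d.X - s₀ - M * K), c (s₀ + M * K + s) ≤
      ((d.X - s₀ - M * K : ℕ) : ℝ) * (2 * Real.log 2) := by
    have := Finset.sum_le_card_nsmul (range (d.X - s₀ - M * K)) (fun s => c (s₀ + M * K + s)) _
      fun s _ => hc2 _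
    rwa [card_range, nsmul_eq_mul] at this
  have e6 : ((d.X - s₀ - M * K : ℕ) : ℝ) = d.X - s₀ - M * K := by
    rw [Nat.cast_sub (by omega), Nat.cast_sub (by omega)]
    push_cast
    ring
  rw [e6] at h5
  rw [e4] at h3
  have e7 : (2 - ι) * d.X * Real.log 2 = (2 * (M * K) - ι * d.X) * Real.log 2 +
      s₀ * (2 * Real.log 2) + ((d.X : ℝ) - s₀ - M * K) * (2 * Real.log 2) := by ring
  rw [e7] at h3
  linarith

end Pool.OCS.SP2
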