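import Pool.Agent.H70.OCS.Sta

/-!
# OCS, row SPS: conclusion
-/

set_option autoImplicit false

namespace Pool.OCS.SP2

open Finset Real
open Pool.Agent.H49.Ent Pool.Agent.H32.Dense Pool.STK Pool.KAF Pool.KVA
open Pool.SLO (Yd Cl)

variable {d : Dat}

/-- The bad references at the depth `s`. -/
def Bd (d : Dat) (m : ℤ) (mu : d.Om × d.Om → ℤ) (lam j k' K : ℕ) (e' : ℝ) (s : ℕ) :
    Set (d.Om × d.Om) :=
  {w | w ∈ Bg d j k' m ∧
    ¬ Pool.SLO.Gd 1 (d.Qp j) (lab d mu) (y4 d lam) (b1 d m mu j k') K e' s w}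

/-- The deficit of the entropy of the position in the cells. -/
noncomputable def Df (d : Dat) (m : ℤ) (mu : d.Om × d.Om → ℤ) (lam j k' K s : ℕ) : ℝ :=
  2 * K - CH (d.Qp j) (Pd d (s + K)) (fun w => (Fr d lam s w, Bv d m mu j k' s w)) / Real.log 2

/-- One class of depths. -/
theorem cls {A : ℕ} (hOK : d.OK A) {n i₀ k₆ lam j k' K M s₀ : ℕ} {m : ℤ}
    {mu : d.Om × d.Om → ℤ} {ι e' : ℝ} (hL : LabS d n i₀ k₆ lam m mu) (hi₀ : i₀ ≤ n)
    (hm : m ≤ 2 * n) (hQ : IsLaw (d.Qp j)) (hH1 : d.H1 ι) (hH3 : d.H3 lam ι) (hι : 0 ≤ ι)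
    (he' : 0 ≤ e') (hl : lam ≤ s₀) (hM : s₀ + M * K ≤ d.X) :
    ∑ i ∈ range M, Df d m mu lam j k' K (s₀ + i * K) ≤
      3 * ι * d.X + 2 * Real.log (22 * n + 1) + (s₀ + A + 3 * n + 7) +
        ∑ i ∈ range M, (6 + (e' + Pr (d.Qp j) (Bd d m mu lam j k' K e' (s₀ + i * K))) * K) := by
  have hQ0 := hQ.nonneg
  have hP := hOK.law
  have hl2 : 0 < Real.log 2 := Real.log_pos (by norm_num)
  have h1 := tel2 hQ0 (fun i => Fr d lam (s₀ + i * K)) (fun i => Bv d m mu j k' (s₀ + i * K))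
    (fun i => Pd d (s₀ + i * K)) M
    (fun i => 6 * Real.log 2 + (e' + Pr (d.Qp j) (Bd d m mu lam j k' K e' (s₀ + i * K))) *
      (K * Real.log 2))
    (fun i _ w w' _ _ h => Fr_anti (by nlinarith only) h) (fun i _ w w' _ _ h => Fr_Pd h)
    (fun i _ => by
      have e1 : s₀ + (i + 1) * K = s₀ + i * K + K := by ring
      rw [e1]
      exact step2 he' hP hQ (s₀ + i * K))
  have h2 := full2 hP hH3 j hl hM
  have h3 := start2 (lam := lam) hOK hL hi₀ hm hQ (s₀ + 0 * K) (k' := k')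
  have h4 : CH (d.Qp j) (fun w => d.T w.2) (fun w => (d.T w.1, d.L w.1)) ≤
      CH (d.Qp j) (Bv d m mu j k' (s₀ + M * K)) (Fr d lam (s₀ + M * K)) := by
    have a1 : CH (d.Qp j) (fun w => d.T w.2) (fun w => (d.T w.1, d.L w.1)) ≤
        CH (d.Qp j) (fun w => d.T w.2) (Fr d lam (s₀ + M * K)) := by
      refine CH_mono_cond hQ0 ?_
      intro w w' _ _ h
      simp only [Prod.mk.injEq] at h
      unfold Fr
      refine Prod.ext h.1 ?_
      unfold Yd y4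
      rw [h.1, h.2]
    refine a1.trans (CH_mono_left hQ0 ?_)
    intro w w' _ _ h
    have h5 : Bv d m mu j k' (s₀ + M * K) w = Bv d m mu j k' (s₀ + M * K) w' :=
      (Prod.ext_iff.1 h).1
    unfold Bv at h5
    simp only [Prod.mk.injEq] at h5
    exact h5.1.1
  have h5 := cost2 hP d.L d.T (d.Ti j) (fun ω ω' _ _ h => by
    show ⌊(2 : ℝ) ^ j * d.th (d.T ω)⌋ = ⌊(2 : ℝ) ^ j * d.th (d.T ω')⌋
    rw [h])
  have h6 : MI d.P d.L d.T (fun _ => ()) ≤ ι * d.X := by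
    rw [Pool.OC.mi_comm _ _ _ hP.nonneg]
    exact hH1.1
  have h5' : CH (d.Qp j) (fun w => d.T w.2) (fun w => d.T w.1) ≤
      CH (d.Qp j) (fun w => d.T w.2) (fun w => (d.T w.1, d.L w.1)) +
        MI d.P d.L d.T (fun _ => ()) := h5
  have e2 : ∑ i ∈ range M, Df d m mu lam j k' K (s₀ + i * K) =
      2 * K * M - (∑ i ∈ range M, CH (d.Qp j) (Pd d (s₀ + (i + 1) * K))
        (fun w => (Fr d lam (s₀ + i * K) w, Bv d m mu j k' (s₀ + i * K) w))) / Real.log 2 := by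
    unfold Df
    rw [Finset.sum_sub_distrib, Finset.sum_const, card_range, nsmul_eq_mul, ← Finset.sum_div]
    have e3 : ∀ i, s₀ + i * K + K = s₀ + (i + 1) * K := fun i => by ring
    simp only [e3]
    ring
  have e4 : ∑ i ∈ range M, (6 * Real.log 2 + (e' + Pr (d.Qp j)
      (Bd d m mu lam j k' K e' (s₀ + i * K))) * (K * Real.log 2)) =
      (∑ i ∈ range M, (6 + (e' + Pr (d.Qp j) (Bd d m mu lam j k' K e' (s₀ + i * K))) * K)) *
        Real.log 2 := by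
    rw [Finset.sum_mul]
    exact Finset.sum_congr rfl fun i _ => by ring
  obtain ⟨C, hC⟩ : ∃ C, C = ∑ i ∈ range M, CH (d.Qp j) (Pd d (s₀ + (i + 1) * K))
        (fun w => (Fr d lam (s₀ + i * K) w, Bv d m mu j k' (s₀ + i * K) w)) := ⟨_, rfl⟩
  obtain ⟨D, hD⟩ : ∃ D, D = ∑ i ∈ range M, (6 + (e' + Pr (d.Qp j)
      (Bd d m mu lam j k' K e' (s₀ + i * K))) * K) := ⟨_, rfl⟩
  rw [e2, ← hC, ← hD]
  simp only [e4] at h1
  rw [← hC, ← hD] at h1
  have e5 : ((s₀ + 0 * K : ℕ) : ℝ) = s₀ := by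
    push_cast
    ring
  rw [e5] at h3
  have h7 : (2 * (M * K) - ι * d.X) * Real.log 2 ≤ ι * d.X + Real.log (22 * n + 1) +
      (s₀ + A + 3 * n + 7) * Real.log 2 + D * Real.log 2 + C := by
    linarith only [h2, h3, h4, h6, h5', h1]
  have h8 : (1 : ℝ) / 2 ≤ Real.log 2 := by
    have := Real.log_two_gt_d9
    linarith only [hl2, this]
  have hX : 0 ≤ ι * (d.X : ℝ) := by positivity
  have hlg : 0 ≤ Real.log (22 * n + 1) := by
    refine Real.log_nonneg ?_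
    have : (0 : ℝ) ≤ n := Nat.cast_nonneg _
    linarith only
  have h9 : ι * d.X ≤ 2 * (ι * d.X) * Real.log 2 := by nlinarith only [h8, hX]
  have h10 : Real.log (22 * n + 1) ≤ 2 * Real.log (22 * n + 1) * Real.log 2 := by nlinarith only [h8, hlg]
  have h11 : (2 * K * M - C / Real.log 2) * Real.log 2 ≤
      (3 * ι * d.X + 2 * Real.log (22 * n + 1) + (s₀ + A + 3 * n + 7) + D) * Real.log 2 := by
    have e6 : (2 * K * M - C / Real.log 2) * Real.log 2 = 2 * (M * K) * Real.log 2 - C := by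
      rw [sub_mul, div_mul_cancel₀ _ hl2.ne']
      ring
    rw [e6]
    linarith only [h2, h3, h4, h6, h5', h1, h9, h10]
  exact le_of_mul_le_mul_right h11 hl2

/-- Conditional laws only depend on the cell. -/
theorem cond_congr_at {Ω S U : Type} [Fintype Ω] {p : Ω → ℝ} (F : Ω → S) (G : Ω → U) (ω : Ω)
    (h : ∀ ω', F ω' = F ω ↔ G ω' = G ω) : cond p F (F ω) = cond p G (G ω) := by
  classical
  funext ω'
  unfold Pool.Agent.H49.Ent.cond law
  have h1 : ∀ v, (F v = F ω) = (G v = G ω) := fun v => propext (h v)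
  simp only [h1]

/-- The context of the strips at the depth `s`. -/
noncomputable def gs (d : Dat) (m : ℤ) (mu : d.Om × d.Om → ℤ) (lam j k' s : ℕ)
    (w : d.Om × d.Om) : (d.Tau × d.Tau × ℤ) × (Fin 2 → ℤ) × (Fin 1 → ℤ) :=
  (lab d mu w, d.omd (s - lam) (d.L w.1), Yd (b1 d m mu j k') s w)

/-- The position. -/
noncomputable def y2 (d : Dat) (w : d.Om × d.Om) : Fin 2 → ℝ := fun r => d.pt (d.T w.1) (d.L w.1) r

/-- The cells of the strips. -/
noncomputable def Cs (d : Dat) (m : ℤ) (mu : d.Om × d.Om → ℤ) (lam j k' s : ℕ) :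
    d.Om × d.Om → ((d.Tau × d.Tau × ℤ) × (Fin 2 → ℤ) × (Fin 1 → ℤ)) × (Fin 2 → ℤ) ×
      (Fin 0 → ℤ) :=
  Cl (gs d m mu lam j k' s) (y2 d) (fun _ (_ : Fin 0) => (0 : ℝ)) s

theorem Bg_iff {j k' : ℕ} {m : ℤ} {v w : d.Om × d.Om} (h1 : d.T v.1 = d.T w.1)
    (h2 : d.T v.2 = d.T w.2) : v ∈ Bg d j k' m ↔ w ∈ Bg d j k' m := by
  unfold Bg Dat.sg Dat.ta
  simp only [Set.mem_ofPred_eq]
  rw [h1, h2]

/-- The cells of a good reference. -/
theorem Cs_iff {m : ℤ} {mu : d.Om × d.Om → ℤ} {lam j k' s : ℕ} {v w : d.Om × d.Om}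
    (hw : w ∈ Bg d j k' m) :
    Cs d m mu lam j k' s v = Cs d m mu lam j k' s w ↔ d.GS mu lam s v = d.GS mu lam s w := by
  classical
  have hfl : ∀ z, z ∈ Bg d j k' m → ⌊(2 : ℝ) ^ s * b1 d m mu j k' z 0⌋ =
      ⌊(2 : ℝ) ^ ((s : ℤ) + mu z) * d.us z⌋ := by
    intro z hz
    unfold b1
    rw [if_pos hz, zpow_add₀ two_ne_zero, zpow_natCast, mul_assoc]
  constructor
  · intro h
    unfold Cs Cl gs lab at h
    simp only [Prod.mk.injEq] at h
    obtain ⟨⟨⟨a1, a2, a3⟩, a4, a5⟩, a6, -⟩ := h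
    have hv : v ∈ Bg d j k' m := (Bg_iff a1 a2).2 hw
    have a7 : ⌊(2 : ℝ) ^ s * b1 d m mu j k' v 0⌋ = ⌊(2 : ℝ) ^ s * b1 d m mu j k' w 0⌋ :=
      congrFun a5 0
    rw [hfl v hv, hfl w hw] at a7
    have a8 : d.ptd s v.1 = d.ptd s w.1 := a6
    unfold Dat.GS
    rw [a1, a2, a3, a4, a8]
    rw [a3] at a7
    rw [a7]
  · intro h
    unfold Dat.GS at h
    simp only [Prod.mk.injEq] at h
    obtain ⟨a1, a2, a3, a4, a5, a6⟩ := h
    have hv : v ∈ Bg d j k' m := (Bg_iff a1 a2).2 hw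
    unfold Cs Cl gs lab
    have a7 : Yd (b1 d m mu j k') s v = Yd (b1 d m mu j k') s w := by
      funext a
      have : a = 0 := Subsingleton.elim a 0
      rw [this]
      show ⌊(2 : ℝ) ^ s * b1 d m mu j k' v 0⌋ = ⌊(2 : ℝ) ^ s * b1 d m mu j k' w 0⌋
      rw [hfl v hv, hfl w hw]
      exact a6
    have a8 : Yd (y2 d) s v = Yd (y2 d) s w := a4
    rw [a1, a2, a3, a5, a7, a8]
    refine Prod.ext rfl (Prod.ext rfl ?_)
    funext a
    exact a.elim0

/-- The bound of the strips. -/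
noncomputable def Nn (d : Dat) (m : ℤ) (mu : d.Om × d.Om → ℤ) (lam j k' K s : ℕ)
    (w : d.Om × d.Om) : ℝ :=
  Pool.SLO.Nb (d.Qp j) (gs d m mu lam j k' s) (y2 d) (fun _ (_ : Fin 0) => (0 : ℝ)) K s w

theorem Ex_Nn {m : ℤ} {mu : d.Om × d.Om → ℤ} {lam j k' K s : ℕ} (hQ : IsLaw (d.Qp j))
    (hl : lam ≤ s) :
    Ex (d.Qp j) (Nn d m mu lam j k' K s) = (Df d m mu lam j k' K s + 5) / K := by
  have hQ0 := hQ.nonneg
  have h1 : CH (d.Qp j) (Pd d (s + K)) (fun w => (Fr d lam s w, Bv d m mu j k' s w)) =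
      Ex (d.Qp j) (fun w => H (cond (d.Qp j) (Cs d m mu lam j k' s) (Cs d m mu lam j k' s w))
        (Yd (y2 d) (s + K))) := by
    rw [← Pool.OCG.CH_eq_Ex hQ0]
    refine CH_congr hQ0 ?_ ?_ ?_ ?_
    · intro w w' _ _ h
      exact (Prod.ext_iff.1 h).1
    · intro w w' _ _ h
      exact (Prod.ext_iff.1 h).1
    · intro w w' _ _ h
      obtain ⟨c1, c2⟩ := Prod.ext_iff.1 h
      have c3 : Fr d lam s w = Fr d lam s w' := c1
      have c4 : Bv d m mu j k' s w = Bv d m mu j k' s w' := c2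
      obtain ⟨a1, a2, a3⟩ := (Fr_iff hl).1 c3
      unfold Bv at c4
      simp only [Prod.mk.injEq] at c4
      unfold Cs Cl gs lab
      have a8 : Yd (y2 d) s w = Yd (y2 d) s w' := a2
      rw [a1, a3, a8, c4.1.1, c4.1.2, c4.2]
      refine Prod.ext rfl (Prod.ext rfl ?_)
      funext a
      exact a.elim0
    · intro w w' _ _ h
      unfold Cs Cl gs lab at h
      simp only [Prod.mk.injEq] at h
      obtain ⟨⟨⟨a1, a2, a3⟩, a4, a5⟩, a6, -⟩ := h
      have c3 : Fr d lam s w = Fr d lam s w' := (Fr_iff hl).2 ⟨a1, a6, a4⟩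
      show (Fr d lam s w, Bv d m mu j k' s w) = (Fr d lam s w', Bv d m mu j k' s w')
      unfold Bv
      rw [c3, a2, a3, a5]
  have h2 : Nn d m mu lam j k' K s = fun w => (K : ℝ)⁻¹ * ((2 * K + 5) - (Real.log 2)⁻¹ *
      H (cond (d.Qp j) (Cs d m mu lam j k' s) (Cs d m mu lam j k' s w))
        (Yd (y2 d) (s + K))) := by
    funext w
    unfold Nn Pool.SLO.Nb
    rw [div_eq_inv_mul]
    congr 1
    rw [div_eq_inv_mul]
    have : Cl (gs d m mu lam j k' s) (y2 d) (fun _ (_ : Fin 0) => (0 : ℝ)) s =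
      Cs d m mu lam j k' s := rfl
    rw [this]
    push_cast
    ring
  rw [h2, Ex_smul, Ex_sub, Ex_const hQ.sum_one, Ex_smul, ← h1]
  unfold Df
  rw [div_eq_inv_mul, div_eq_inv_mul]
  ring

theorem Nn_nonneg {m : ℤ} {mu : d.Om × d.Om → ℤ} {lam j k' K s : ℕ} (hQ : IsLaw (d.Qp j))
    (hK : 1 ≤ K) {w : d.Om × d.Om} (hw : 0 < d.Qp j w) : 0 ≤ Nn d m mu lam j k' K s w :=
  Pool.SLO.Nb_nonneg (gs d m mu lam j k' s) (y2 d) (fun _ (_ : Fin 0) => (0 : ℝ)) hQ hK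
    (by norm_num) s hw

open Classical in
/-- The bound in SPS. -/
noncomputable def Mm (d : Dat) (m : ℤ) (mu : d.Om × d.Om → ℤ) (lam j k' K s : ℕ)
    (w : d.Om × d.Om) : ℝ :=
  if w ∈ Bg d j k' m then max 0 (Nn d m mu lam j k' K s w) else 0

theorem Mm_cell {m : ℤ} {mu : d.Om × d.Om → ℤ} {lam j k' K s : ℕ} {w w' : d.Om × d.Om}
    (h : d.GS mu lam s w = d.GS mu lam s w') :
    Mm d m mu lam j k' K s w = Mm d m mu lam j k' K s w' := by
  have h0 := h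
  unfold Dat.GS at h0
  simp only [Prod.mk.injEq] at h0
  have h1 := Bg_iff (j := j) (k' := k') (m := m) h0.1 h0.2.1
  unfold Mm
  by_cases hw : w ∈ Bg d j k' m
  · have hw' := h1.1 hw
    rw [if_pos hw, if_pos hw']
    have h2 : Cs d m mu lam j k' s w = Cs d m mu lam j k' s w' := (Cs_iff hw').2 h
    have h3 : Nn d m mu lam j k' K s w = Nn d m mu lam j k' K s w' :=
      Pool.SLO.Nb_cell (gs d m mu lam j k' s) (y2 d) (fun _ (_ : Fin 0) => (0 : ℝ)) h2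
    rw [h3]
  · have hw' : w' ∉ Bg d j k' m := fun h => hw (h1.2 h)
    rw [if_neg hw, if_neg hw']

theorem Mm_strip {m : ℤ} {mu : d.Om × d.Om → ℤ} {lam j k' K s : ℕ} (hQ : IsLaw (d.Qp j))
    (hK : 1 ≤ K) {w : d.Om × d.Om} (hw : 0 < d.Qp j w) (hB : w ∈ Bg d j k' m) (ξ : Fin 2 → ℝ)
    (hξ : 0 < ‖ξ‖) :
    Pr (cond (d.Qp j) (d.GS mu lam s) (d.GS mu lam s w))
      {v | |∑ r, ξ r * (d.pt (d.T w.1) (d.L v.1) r - d.pt (d.T w.1) (d.L w.1) r)| <
        ‖ξ‖ * (2 : ℝ) ^ (-((s : ℤ) + K))} ≤ Mm d m mu lam j k' K s w := by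
  classical
  unfold Mm
  rw [if_pos hB]
  refine le_trans ?_ (le_max_right _ _)
  have h1 := Pool.SLO.strip (gs d m mu lam j k' s) (y2 d) (fun _ (_ : Fin 0) => (0 : ℝ)) hQ hK s
    hw ξ hξ
  refine le_trans (le_of_eq ?_) h1
  have e0 : cond (d.Qp j) (d.GS mu lam s) (d.GS mu lam s w) =
      cond (d.Qp j) (Cs d m mu lam j k' s) (Cs d m mu lam j k' s w) :=
    cond_congr_at _ _ w fun v => (Cs_iff hB).symm
  have e1 : cond (d.Qp j) (Cs d m mu lam j k' s) (Cs d m mu lam j k' s w) =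
      cond (d.Qp j) (Cl (gs d m mu lam j k' s) (y2 d) (fun _ (_ : Fin 0) => (0 : ℝ)) s)
        (Cl (gs d m mu lam j k' s) (y2 d) (fun _ (_ : Fin 0) => (0 : ℝ)) s w) := rfl
  rw [← e1, ← e0]
  refine Pool.SLO.pr_congr (fun v => cond_nonneg hQ.nonneg _ _ v) fun v hv => ?_
  obtain ⟨-, hc⟩ := (cond_pos_iff hQ.nonneg _ _ v).1 hv
  unfold Dat.GS at hc
  simp only [Prod.mk.injEq] at hc
  have e2 : ‖ξ‖ * (2 : ℝ) ^ (-((s : ℤ) + K)) = ‖ξ‖ / 2 ^ (s + K) := by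
    rw [zpow_neg, div_eq_mul_inv]
    congr 2
  show |∑ r, ξ r * (d.pt (d.T w.1) (d.L v.1) r - d.pt (d.T w.1) (d.L w.1) r)| <
        ‖ξ‖ * (2 : ℝ) ^ (-((s : ℤ) + K)) ↔
    |∑ r, ξ r * (y2 d v r - y2 d w r)| < ‖ξ‖ / 2 ^ (s + K)
  rw [e2]
  unfold y2
  rw [hc.1]

/-- The sum over all depths. -/
theorem sum_all {A : ℕ} (hOK : d.OK A) {n i₀ k₆ lam j k' K M : ℕ} {m : ℤ}
    {mu : d.Om × d.Om → ℤ} {ι e' Bb : ℝ} (hL : LabS d n i₀ k₆ lam m mu) (hi₀ : i₀ ≤ n)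
    (hm : m ≤ 2 * n) (hQ : IsLaw (d.Qp j)) (hH1 : d.H1 ι) (hH3 : d.H3 lam ι) (hι : 0 ≤ ι)
    (he' : 0 ≤ e') (hl : lam ≤ 8 * n) (hK : 1 ≤ K) (hM : 8 * n + K + M * K ≤ d.X)
    (hM2 : M * K ≤ d.X - 16 * n + K)
    (hbad : ∑ s ∈ Finset.Ico (8 * n) (d.X - 8 * n), Pr (d.Qp j) (Bd d m mu lam j k' K e' s) ≤
      Bb) :
    ∑ s ∈ Finset.Ico (8 * n) (8 * n + M * K), Ex (d.Qp j) (Nn d m mu lam j k' K s) ≤
      3 * ι * d.X + 2 * Real.log (22 * n + 1) + (11 * n + 2 * K + A + 7) + 11 * M +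
        M * K * e' + Bb := by
  have hQ0 := hQ.nonneg
  have hK0 : (0 : ℝ) < K := by exact_mod_cast hK
  obtain ⟨Pb, hPb⟩ : ∃ Pb : ℕ → ℝ, Pb = fun s => Pr (d.Qp j) (Bd d m mu lam j k' K e' s) :=
    ⟨_, rfl⟩
  have hPb0 : ∀ s, 0 ≤ Pb s := by
    intro s
    rw [hPb]
    exact Pool.KAF.Pr_nonneg hQ0 _
  have hPb1 : ∀ s, Pb s ≤ 1 := by
    intro s
    rw [hPb]
    exact Pool.KAF.Pr_le_one hQ _
  -- the classes
  have hcl : ∀ r ∈ range K, ∑ i ∈ range M, Df d m mu lam j k' K (8 * n + (r + i * K)) ≤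
      3 * ι * d.X + 2 * Real.log (22 * n + 1) + (11 * n + K + A + 7) +
        ∑ i ∈ range M, (6 + (e' + Pb (8 * n + (r + i * K))) * K) := by
    intro r hr
    rw [mem_range] at hr
    have h1 := cls (lam := lam) (k' := k') (K := K) (M := M) (s₀ := 8 * n + r) hOK hL hi₀ hm hQ
      hH1 hH3 hι he' (by omega) (by omega)
    have e1 : ∀ i, 8 * n + r + i * K = 8 * n + (r + i * K) := fun i => by ring
    simp only [e1] at h1
    have h2 : (r : ℝ) ≤ K := by exact_mod_cast hr.le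
    rw [hPb]
    push_cast at h1
    linarith only [h2, h1]
  have hsum := Finset.sum_le_sum hcl
  rw [Finset.sum_add_distrib, Finset.sum_const, card_range, nsmul_eq_mul,
    ← Pool.OCG.sum_range_mul (fun x => Df d m mu lam j k' K (8 * n + x)),
    ← Pool.OCG.sum_range_mul (fun x => 6 + (e' + Pb (8 * n + x)) * K)] at hsum
  have e2 : ∑ x ∈ range (M * K), (6 + (e' + Pb (8 * n + x)) * K) =
      M * K * (6 + e' * K) + K * ∑ x ∈ range (M * K), Pb (8 * n + x) := by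
    have : ∀ x ∈ range (M * K), (6 + (e' + Pb (8 * n + x)) * K) =
        (6 + e' * K) + K * Pb (8 * n + x) := fun x _ => by ring
    rw [Finset.sum_congr rfl this, Finset.sum_add_distrib, Finset.sum_const, card_range,
      nsmul_eq_mul, ← Finset.mul_sum]
    push_cast
    ring
  rw [e2] at hsum
  -- the bad probabilities
  have hPs : ∑ x ∈ range (M * K), Pb (8 * n + x) ≤ Bb + K := by
    have e3 : ∑ x ∈ range (M * K), Pb (8 * n + x) = ∑ s ∈ Ico (8 * n) (8 * n + M * K), Pb s := by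
      rw [Finset.sum_Ico_eq_sum_range, add_tsub_cancel_left]
    rw [e3]
    rcases le_total (8 * n + M * K) (d.X - 8 * n) with h1 | h1
    · have h2 : ∑ s ∈ Ico (8 * n) (8 * n + M * K), Pb s ≤
          ∑ s ∈ Ico (8 * n) (d.X - 8 * n), Pb s :=
        Finset.sum_le_sum_of_subset_of_nonneg (Finset.Ico_subset_Ico le_rfl h1)
          fun s _ _ => hPb0 s
      have h3 : ∑ s ∈ Ico (8 * n) (d.X - 8 * n), Pb s ≤ Bb := by
        rw [hPb]
        exact hbad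
      linarith only [hK0, h2, h3]
    · rcases le_total (8 * n) (d.X - 8 * n) with h0 | h0
      · rw [← Finset.sum_Ico_consecutive Pb h0 h1]
        have h3 : ∑ s ∈ Ico (8 * n) (d.X - 8 * n), Pb s ≤ Bb := by
          rw [hPb]
          exact hbad
        have h4 := Finset.sum_le_card_nsmul (Ico (d.X - 8 * n) (8 * n + M * K)) Pb 1
          fun s _ => hPb1 s
        rw [Nat.card_Ico, nsmul_eq_mul, mul_one] at h4
        have h5 : ((8 * n + M * K - (d.X - 8 * n) : ℕ) : ℝ) ≤ K := by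
          exact_mod_cast (by omega : 8 * n + M * K - (d.X - 8 * n) ≤ K)
        linarith only [h3, h4, h5]
      · have h4 := Finset.sum_le_card_nsmul (Ico (8 * n) (8 * n + M * K)) Pb 1
          fun s _ => hPb1 s
        rw [Nat.card_Ico, nsmul_eq_mul, mul_one, add_tsub_cancel_left] at h4
        have h5 : ((M * K : ℕ) : ℝ) ≤ K := by
          exact_mod_cast (by omega : M * K ≤ K)
        have h6 : (0 : ℝ) ≤ Bb := by
          refine le_trans ?_ hbad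
          exact Finset.sum_nonneg fun s _ => Pool.KAF.Pr_nonneg hQ0 _
        linarith only [h4, h5, h6]
  -- the strips
  have e4 : ∑ s ∈ Finset.Ico (8 * n) (8 * n + M * K), Ex (d.Qp j) (Nn d m mu lam j k' K s) =
      (∑ x ∈ range (M * K), Df d m mu lam j k' K (8 * n + x) + M * K * 5) / K := by
    rw [Finset.sum_Ico_eq_sum_range, add_tsub_cancel_left]
    have : ∀ x ∈ range (M * K), Ex (d.Qp j) (Nn d m mu lam j k' K (8 * n + x)) =
        (Df d m mu lam j k' K (8 * n + x) + 5) / K := fun x _ => Ex_Nn hQ (by omega)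
    rw [Finset.sum_congr rfl this, ← Finset.sum_div, Finset.sum_add_distrib, Finset.sum_const,
      card_range, nsmul_eq_mul]
    push_cast
    ring
  rw [e4, div_le_iff₀ hK0]
  have h7 := mul_le_mul_of_nonneg_left hPs hK0.le
  have e5 : (3 * ι * d.X + 2 * Real.log (22 * n + 1) + (11 * n + 2 * K + A + 7) + 11 * M +
      M * K * e' + Bb) * K = K * (3 * ι * d.X + 2 * Real.log (22 * n + 1) +
      (11 * n + K + A + 7)) + (M * K * (6 + e' * K) + K * (Bb + K)) + M * K * 5 := by ring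
  rw [e5]
  linarith only [hsum, h7]

end Pool.OCS.SP2

namespace Pool.OCS

open Finset Real
open Pool.Agent.H49.Ent Pool.Agent.H32.Dense Pool.STK Pool.KAF Pool.KVA
open Pool.OCS.SP2

/-- **SPS** from the row BAD. -/
theorem sps_of (hBAD : BADStmt) : SPSStmt := by
  classical
  intro u ε₄ hu hu1 hε₄
  obtain ⟨K, hK1, hK⟩ : ∃ K : ℕ, 1 ≤ K ∧ 176 / ε₄ ≤ K := by
    refine ⟨⌈176 / ε₄⌉₊ + 1, by omega, ?_⟩
    have := Nat.le_ceil (176 / ε₄)
    push_cast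
    linarith only [this]
  refine ⟨K, ε₄ / 352, u * ε₄ / 4096, u * ε₄ * ε₄ / 2048, hK1, by positivity, by positivity,
    by positivity, fun A k' => ?_⟩
  obtain ⟨n₁, hn₁⟩ : ∃ n₁ : ℕ, (2 * K + A + 7 + ε₄ + 200 / ε₄) / (ε₄ / 2) ≤ n₁ :=
    ⟨_, Nat.le_ceil _⟩
  refine ⟨K + k', K + n₁ + 1, 1, ?_⟩
  intro d J m mu n h g i₀ k₆ lam j k k₁ e hOK hS hn₀ hκ hg hlam hi₀ hi₀' hj hj' hk₆ hL hk hk₁ he
    hRow _ hJ hfs hTB hH1 hH3
  have hQ : IsLaw (d.Qp j) := ⟨fun w => dbl_nonneg hOK.law.nonneg w,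
    Pool.KAL.FRM.dbl_sum hOK.law _⟩
  have hQ0 := hQ.nonneg
  have hnX := hS.nX
  have h1024 := hS.hn
  have hh1 := hS.h1
  have hK0 : (0 : ℝ) < K := by exact_mod_cast hK1
  have hX0 : (0 : ℝ) ≤ d.X := Nat.cast_nonneg _
  have hn0 : (0 : ℝ) ≤ n := Nat.cast_nonneg _
  have hbad := hBAD d A K k' J m mu n h g i₀ k₆ lam j k k₁ e (ε₄ / 16) u (u * ε₄ / 4096) hOK hS
    hg hlam hi₀ hi₀' hj hj' hk₆ hL hk hk₁ hu hu1 (by positivity) (by positivity) hRow hJ hfs hTB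
  refine ⟨fun s w => Mm d m mu lam j k' K s w, ?_, fun s w w' hG => Mm_cell hG,
    fun s _ w hw hB ξ hξ => Mm_strip hQ hK1 hw hB ξ hξ, ?_⟩
  · intro s w
    show 0 ≤ Mm d m mu lam j k' K s w
    unfold Mm
    split_ifs
    · exact le_max_left _ _
    · exact le_rfl
  obtain ⟨M, hM⟩ : ∃ M, M = (d.X - 16 * n) / K + 1 := ⟨_, rfl⟩
  have hM1 : d.X - 16 * n ≤ M * K := by
    have := Nat.lt_div_mul_add (a := d.X - 16 * n) (b := K) (by omega)
    rw [hM, add_mul, one_mul]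
    omega
  have hM2 : M * K ≤ d.X - 16 * n + K := by
    rw [hM, add_mul, one_mul]
    have := Nat.div_mul_le_self (d.X - 16 * n) K
    omega
  have hNn0 : ∀ s w, 0 < d.Qp j w → 0 ≤ Nn d m mu lam j k' K s w :=
    fun s w hw => Nn_nonneg hQ hK1 hw
  have h1 : ∑ s ∈ Finset.Ico (8 * n) (d.X - 8 * n),
      Ex (d.Qp j) (Set.indicator (Bg d j k' m) (fun w => Mm d m mu lam j k' K s w)) ≤
      ∑ s ∈ Finset.Ico (8 * n) (8 * n + M * K), Ex (d.Qp j) (Nn d m mu lam j k' K s) := by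
    refine (Finset.sum_le_sum fun s _ => ?_).trans
      (Finset.sum_le_sum_of_subset_of_nonneg (f := fun s => Ex (d.Qp j) (Nn d m mu lam j k' K s))
        (s := Finset.Ico (8 * n) (d.X - 8 * n)) ?_ fun s _ _ => Ex_nonneg hQ0 (hNn0 s))
    · refine Ex_mono hQ0 fun w hw => ?_
      by_cases hB : w ∈ Bg d j k' m
      · rw [Set.indicator_of_mem hB]
        unfold Mm
        rw [if_pos hB, max_eq_right (hNn0 s w hw)]
      · rw [Set.indicator_of_notMem hB]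
        exact hNn0 s w hw
    · refine Finset.Ico_subset_Ico le_rfl ?_
      omega
  refine h1.trans ?_
  have h2 := sum_all (ι := u * ε₄ / 4096) (e' := ε₄ / 16) (M := M) (K := K) (k' := k')
    hOK hL hi₀' hS.m2 hQ hH1 hH3 (by positivity) (by positivity) (by omega) hK1 (by omega) hM2
    hbad
  refine h2.trans ?_
  -- arithmetic
  have hMK : (M : ℝ) * K ≤ d.X := by
    exact_mod_cast (by omega : M * K ≤ d.X)
  have hM0 : (0 : ℝ) ≤ M := Nat.cast_nonneg _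
  have t1 : 3 * (u * ε₄ / 4096) * d.X ≤ 3 * ε₄ / 4096 * d.X := by
    refine mul_le_mul_of_nonneg_right ?_ hX0
    have := mul_le_mul_of_nonneg_right hu1 hε₄.le
    linarith only [this]
  have t2 : 11 * (n : ℝ) ≤ ε₄ / 32 * d.X := by
    have : 11 * (n : ℝ) ≤ 11 * (ε₄ / 352 * d.X) := by linarith only [hκ]
    refine this.trans (le_of_eq ?_)
    ring
  have t3 : 11 * (M : ℝ) ≤ ε₄ / 16 * d.X := by
    rw [div_le_iff₀ hε₄] at hK
    have h3 := mul_le_mul_of_nonneg_left hK hM0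
    have h4 := mul_le_mul_of_nonneg_left hMK hε₄.le
    nlinarith only [h3, h4]
  have t4 : (M : ℝ) * K * (ε₄ / 16) ≤ ε₄ / 16 * d.X := by
    rw [mul_comm]
    exact mul_le_mul_of_nonneg_left hMK (by positivity)
  have t5 : (u * ε₄ / 4096 * (2 + 128 / u) + 8 * e / (u * (ε₄ / 16))) * d.X ≤
      (130 * ε₄ / 4096 + ε₄ / 16) * d.X := by
    refine mul_le_mul_of_nonneg_right (add_le_add ?_ ?_) hX0
    · have e1 : u * ε₄ / 4096 * (2 + 128 / u) = (2 * (u * ε₄) + 128 * ε₄) / 4096 := by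
        field_simp
      rw [e1]
      have := mul_le_mul_of_nonneg_right hu1 hε₄.le
      linarith only [this]
    · rw [div_le_iff₀ (by positivity)]
      have e1 : ε₄ / 16 * (u * (ε₄ / 16)) = 8 * (u * ε₄ * ε₄ / 2048) := by ring
      rw [e1]
      linarith only [he]
  have t6 : 2 * Real.log (22 * n + 1) + (2 * K + A + 7) ≤ ε₄ / 64 * d.X := by
    have hz : (0 : ℝ) < 22 * n + 1 := by positivity
    have h3 := Pool.OC.SP.log_lin hz (by positivity : (0 : ℝ) < ε₄ / 100)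
    have e1 : 1 / (ε₄ / 100) = 100 / ε₄ := by
      rw [one_div_div]
    rw [e1] at h3
    have h4 : (2 * K + A + 7 + ε₄ + 200 / ε₄) ≤ ε₄ / 2 * n := by
      rw [div_le_iff₀ (by positivity)] at hn₁
      have h5 : (n₁ : ℝ) ≤ n := by exact_mod_cast (by omega : n₁ ≤ n)
      have h6 := mul_le_mul_of_nonneg_right h5 (by positivity : 0 ≤ ε₄ / 2)
      linarith only [hn₁, h6]
    have h5 : (64 : ℝ) * n ≤ d.X := by exact_mod_cast hnX
    have h6 := mul_le_mul_of_nonneg_left h5 (by positivity : 0 ≤ ε₄ / 64)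
    have h7 : 2 * (100 / ε₄) = 200 / ε₄ := by ring
    have h8 : 0 ≤ ε₄ * n := by positivity
    linarith only [hε₄, hκ, h3, h4, h6, h7]
  have t7 : 0 ≤ ε₄ * d.X := by positivity
  linarith only [hκ, t1, t3, t4, t5, t6]

end Pool.OCS
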