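import Pool.Agent.H70.OCS.Spr
import Pool.Agent.H41.OCS.Geo

/-!
# OCS, row SPS: the start of the telescope
-/

set_option autoImplicit false

namespace Pool.OCS.SP2

open Finset Real
open Pool.Agent.H49.Ent Pool.Agent.H32.Dense Pool.STK Pool.KAF Pool.KVA
open Pool.SLO (Yd Cl)

variable {d : Dat}

/-- The unknown number is bounded. -/
theorem b1_le {A : ℕ} (hOK : d.OK A) {n i₀ k₆ lam j k' : ℕ} {m : ℤ} {mu : d.Om × d.Om → ℤ}
    (hL : LabS d n i₀ k₆ lam m mu) (hi₀ : i₀ ≤ n) (hm : m ≤ 2 * n) {w : d.Om × d.Om}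
    (hw : 0 < d.Qp j w) : |b1 d m mu j k' w 0| ≤ 2 ^ (A + 3 * n + 4) := by
  classical
  unfold b1
  split_ifs with hB
  swap
  · rw [abs_zero]
    positivity
  obtain ⟨hB1, hB2⟩ := hB
  have hpos : 0 < d.P w.1 ∧ 0 < d.P w.2 ∧ (d.L w.1, d.Ti j w.1) = (d.L w.2, d.Ti j w.2) := by
    have hw' : 0 < dbl d.P (fun ω => (d.L ω, d.Ti j ω)) w := hw
    exact (glue_pos_iff hOK.law.nonneg hOK.law.nonneg w).1 hw'
  have hta0 : 0 < |d.ta w| := lt_of_lt_of_le (by positivity) hB2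
  have hta : d.ta w ≠ 0 := abs_pos.1 hta0
  have h2A : (0 : ℝ) < 2 ^ A := by positivity
  have ht1 := hOK.hth (d.T w.1)
  have ht2 := hOK.hth (d.T w.2)
  have hta1 : |d.ta w| ≤ 1 := by
    unfold Dat.ta
    rw [abs_le]
    constructor <;> linarith [ht1.1, ht1.2, ht2.1, ht2.2]
  have hy := hOK.hy w.1 hpos.1
  have hom := hOK.hom w.1 hpos.1
  have hbe := hOK.hbe w.1 hpos.1
  have hS := hOK.hS (d.T w.1)
  have hpt : ∀ r, |d.pt (d.T w.1) (d.L w.1) r| ≤ 2 * 2 ^ A := by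
    intro r
    unfold Dat.pt
    refine (abs_add_le _ _).trans ?_
    rw [abs_mul, abs_of_nonneg ht1.1]
    have h1 := mul_le_mul ht1.2.le (hom r) (abs_nonneg _) zero_le_one
    linarith [hy r]
  have hct : |d.ct (d.T w.1) (d.L w.1)| ≤ 3 * 2 ^ A := by
    unfold Dat.ct
    have h1 : |∑ r, d.S (d.T w.1) r * d.omR (d.L w.1) r| ≤ 2 * 2 ^ A := by
      rw [Fin.sum_univ_two]
      refine (abs_add_le _ _).trans ?_
      rw [abs_mul, abs_mul]
      have h2 := mul_le_mul (hS 0) (hom 0) (abs_nonneg _) zero_le_one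
      have h3 := mul_le_mul (hS 1) (hom 1) (abs_nonneg _) zero_le_one
      linarith
    refine (abs_sub _ _).trans ?_
    linarith
  have hsg : ∀ r, |d.sg w r| ≤ (2 : ℝ) ^ (-m) * |d.ta w| := by
    intro r
    rw [← Real.norm_eq_abs]
    exact (norm_le_pi_norm (d.sg w) r).trans hB1
  have hz : (0 : ℝ) < (2 : ℝ) ^ (-m) := by positivity
  have h1 : |∑ r, d.sg w r * d.pt (d.T w.1) (d.L w.1) r| ≤
      4 * ((2 : ℝ) ^ (-m) * 2 ^ A) * |d.ta w| := by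
    rw [Fin.sum_univ_two]
    refine (abs_add_le _ _).trans ?_
    rw [abs_mul, abs_mul]
    have h2 := mul_le_mul (hsg 0) (hpt 0) (abs_nonneg _) (by positivity)
    have h3 := mul_le_mul (hsg 1) (hpt 1) (abs_nonneg _) (by positivity)
    have e : 4 * ((2 : ℝ) ^ (-m) * 2 ^ A) * |d.ta w| =
        (2 : ℝ) ^ (-m) * |d.ta w| * (2 * 2 ^ A) + (2 : ℝ) ^ (-m) * |d.ta w| * (2 * 2 ^ A) := by
      ring
    rw [e]
    exact add_le_add h2 h3
  have h2 : |∑ r, d.sg w r * d.omR (d.L w.1) r| ≤ 2 * ((2 : ℝ) ^ (-m) * 2 ^ A) := by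
    rw [Fin.sum_univ_two]
    refine (abs_add_le _ _).trans ?_
    rw [abs_mul, abs_mul]
    have hs : ∀ r, |d.sg w r| ≤ (2 : ℝ) ^ (-m) := by
      intro r
      refine (hsg r).trans ?_
      have := mul_le_mul_of_nonneg_left hta1 hz.le
      linarith
    have h2 := mul_le_mul (hs 0) (hom 0) (abs_nonneg _) hz.le
    have h3 := mul_le_mul (hs 1) (hom 1) (abs_nonneg _) hz.le
    linarith
  have hZ : |d.ZR (d.T w.1) (d.T w.2) (d.L w.1)| ≤
      (3 * 2 ^ A + 6 * ((2 : ℝ) ^ (-m) * 2 ^ A)) * |d.ta w| := by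
    rw [Pool.OCS.G41.ZR_eq]
    have e1 : (d.th (d.T w.2) - d.th (d.T w.1)) * d.ct (d.T w.1) (d.L w.1) -
        ∑ r, (d.S (d.T w.2) r - d.S (d.T w.1) r) * d.pt (d.T w.1) (d.L w.1) r -
        (d.th (d.T w.2) - d.th (d.T w.1)) *
          ∑ r, (d.S (d.T w.2) r - d.S (d.T w.1) r) * d.omR (d.L w.1) r =
        d.ta w * d.ct (d.T w.1) (d.L w.1) - ∑ r, d.sg w r * d.pt (d.T w.1) (d.L w.1) r -
        d.ta w * ∑ r, d.sg w r * d.omR (d.L w.1) r := rfl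
    rw [e1]
    refine (abs_sub _ _).trans ?_
    refine (add_le_add (abs_sub _ _) le_rfl).trans ?_
    rw [abs_mul, abs_mul]
    have h3 := mul_le_mul_of_nonneg_left hct hta0.le
    have h4 := mul_le_mul_of_nonneg_left h2 hta0.le
    calc |d.ta w| * |d.ct (d.T w.1) (d.L w.1)| +
          |∑ r, d.sg w r * d.pt (d.T w.1) (d.L w.1) r| +
          |d.ta w| * |∑ r, d.sg w r * d.omR (d.L w.1) r|
        ≤ |d.ta w| * (3 * 2 ^ A) + 4 * ((2 : ℝ) ^ (-m) * 2 ^ A) * |d.ta w| +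
          |d.ta w| * (2 * ((2 : ℝ) ^ (-m) * 2 ^ A)) := add_le_add (add_le_add h3 h1) h4
      _ = (3 * 2 ^ A + 6 * ((2 : ℝ) ^ (-m) * 2 ^ A)) * |d.ta w| := by ring
  have hus : |d.us w| ≤ 3 * 2 ^ A + 6 * ((2 : ℝ) ^ (-m) * 2 ^ A) := by
    unfold Dat.us
    rw [abs_div, div_le_iff₀ hta0]
    exact hZ
  have hmu : (0 : ℝ) < (2 : ℝ) ^ (mu w) := by positivity
  rw [abs_mul, abs_of_pos hmu]
  have h3 := hL.hi w
  have h4 : (2 : ℝ) ^ (mu w) ≤ 2 ^ (3 * n) := by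
    rw [← zpow_natCast]
    refine zpow_le_zpow_right₀ (by norm_num) ?_
    push_cast
    have : (i₀ : ℤ) ≤ n := by exact_mod_cast hi₀
    have h5 : (0 : ℤ) ≤ k₆ := Int.natCast_nonneg _
    have h6 : (0 : ℤ) ≤ lam := Int.natCast_nonneg _
    linarith
  have h5 : (2 : ℝ) ^ (mu w) * (2 : ℝ) ^ (-m) ≤ 2 ^ (3 * n) := by
    rw [← zpow_add₀ (by norm_num), ← zpow_natCast]
    refine zpow_le_zpow_right₀ (by norm_num) ?_
    push_cast
    have h7 : (i₀ : ℤ) ≤ n := by exact_mod_cast hi₀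
    have h5 : (0 : ℤ) ≤ k₆ := Int.natCast_nonneg _
    have h6 : (0 : ℤ) ≤ lam := Int.natCast_nonneg _
    have h8 : (0 : ℤ) ≤ n := Int.natCast_nonneg _
    linarith
  calc (2 : ℝ) ^ (mu w) * |d.us w| ≤
        (2 : ℝ) ^ (mu w) * (3 * 2 ^ A + 6 * ((2 : ℝ) ^ (-m) * 2 ^ A)) :=
        mul_le_mul_of_nonneg_left hus hmu.le
    _ = 3 * 2 ^ A * (2 : ℝ) ^ (mu w) + 6 * 2 ^ A * ((2 : ℝ) ^ (mu w) * (2 : ℝ) ^ (-m)) := by ring
    _ ≤ 3 * 2 ^ A * 2 ^ (3 * n) + 6 * 2 ^ A * 2 ^ (3 * n) :=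
        add_le_add (mul_le_mul_of_nonneg_left h4 (by positivity))
          (mul_le_mul_of_nonneg_left h5 (by positivity))
    _ = 9 * (2 ^ A * 2 ^ (3 * n)) := by ring
    _ ≤ 16 * (2 ^ A * 2 ^ (3 * n)) := by
        have : (0 : ℝ) ≤ 2 ^ A * 2 ^ (3 * n) := by positivity
        linarith
    _ = 2 ^ (A + 3 * n + 4) := by
        rw [pow_add, pow_add]
        norm_num
        ring

/-- The start. -/
theorem start2 {A : ℕ} (hOK : d.OK A) {n i₀ k₆ lam j k' : ℕ} {m : ℤ} {mu : d.Om × d.Om → ℤ}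
    (hL : LabS d n i₀ k₆ lam m mu) (hi₀ : i₀ ≤ n) (hm : m ≤ 2 * n) (hQ : IsLaw (d.Qp j)) (s : ℕ) :
    CH (d.Qp j) (Bv d m mu j k' s) (Fr d lam s) ≤
      CH (d.Qp j) (fun w => d.T w.2) (fun w => d.T w.1) + Real.log (22 * n + 1) +
        (s + A + 3 * n + 7) * Real.log 2 := by
  have hQ0 := hQ.nonneg
  have h1 : CH (d.Qp j) (Bv d m mu j k' s) (Fr d lam s) ≤
      CH (d.Qp j) (fun w => (d.T w.2, mu w)) (Fr d lam s) +
        CH (d.Qp j) (Yd (b1 d m mu j k') s) (Fr d lam s) :=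
    CH_subadd hQ0 (fun w => (d.T w.2, mu w)) (Yd (b1 d m mu j k') s) (Fr d lam s)
  have h2 : CH (d.Qp j) (fun w => (d.T w.2, mu w)) (Fr d lam s) ≤
      CH (d.Qp j) (fun w => d.T w.2) (Fr d lam s) + CH (d.Qp j) mu (Fr d lam s) :=
    CH_subadd hQ0 _ _ _
  have h3 : CH (d.Qp j) (fun w => d.T w.2) (Fr d lam s) ≤
      CH (d.Qp j) (fun w => d.T w.2) (fun w => d.T w.1) :=
    CH_mono_cond hQ0 fun w w' _ _ h => (Prod.ext_iff.1 h).1
  have h4 : CH (d.Qp j) mu (Fr d lam s) ≤ Real.log (22 * n + 1) := by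
    have h5 := CH_le_int hQ0 hQ.sum_one mu (Fr d lam s) (fun _ => (11 * n : ℝ)) (by
      intro w w' _ _ _
      have a1 := hL.lo w
      have a2 := hL.hi w
      have a3 := hL.lo w'
      have a4 := hL.hi w'
      have a5 : |mu w - mu w'| ≤ 11 * n := by
        rw [abs_le]
        constructor <;> omega
      exact_mod_cast a5)
    rw [Ex_const hQ.sum_one] at h5
    have e1 : (2 : ℝ) * (11 * n) + 1 = 22 * n + 1 := by ring
    rw [e1] at h5
    exact h5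
  have h5 : CH (d.Qp j) (Yd (b1 d m mu j k') s) (Fr d lam s) ≤
      (s + A + 3 * n + 7) * Real.log 2 := by
    refine (Pool.STK.Q22.CH_pi hQ0 (Fr d lam s) 1 (Yd (b1 d m mu j k') s)).trans ?_
    rw [Fin.sum_univ_one]
    have h6 := Pool.OC.SP.ch_bd hQ (fun w => (2 : ℝ) ^ s * b1 d m mu j k' w 0) (Fr d lam s)
      (s + (A + 3 * n + 4) + 1) (fun w => Yd (b1 d m mu j k') s w 0) (fun w => rfl) (by omega) (by
        intro w w' hw hw' _
        have key : ∀ w, 0 < d.Qp j w →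
            |(2 : ℝ) ^ s * b1 d m mu j k' w 0| ≤ 2 ^ (s + (A + 3 * n + 4)) := by
          intro w hw
          rw [abs_mul, abs_of_pos (by positivity : (0 : ℝ) < 2 ^ s), pow_add]
          exact mul_le_mul_of_nonneg_left (b1_le hOK hL hi₀ hm hw) (by positivity)
        have h3 := key w hw
        have h4 := key w' hw'
        have h5 := abs_sub ((2 : ℝ) ^ s * b1 d m mu j k' w 0) ((2 : ℝ) ^ s * b1 d m mu j k' w' 0)
        rw [pow_succ]
        linarith)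
    refine h6.trans (le_of_eq ?_)
    push_cast
    ring
  linarith

end Pool.OCS.SP2
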